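import Pool.Agent.L0h87.LE.StmB

set_option autoImplicit false

/-! Project LE, module BIN. -/

namespace Pool.Agent.L0h71.LE

open Finset Pool.Agent.L0h87.LE

theorem BIN (h : Pool.Agent.L0h87.LE.REP) : Pool.Agent.L0h87.LE.BIN := by
  intro N u v p E h1 h2
  rw [h N u v u v, h N 1 1 1 1] at h1
  rw [h N u v 1 1, h N 1 1 1 1] at h2
  obtain ⟨A, hA⟩ : ∃ A, A = ∑ n ∈ range (2 * N + 1), rep N n u v * rep N n u v := ⟨_, rfl⟩
  obtain ⟨B, hB⟩ : ∃ B, B = ∑ n ∈ range (2 * N + 1), rep N n u v * rep N n 1 1 := ⟨_, rfl⟩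
  obtain ⟨C, hC⟩ : ∃ C, C = ∑ n ∈ range (2 * N + 1), rep N n 1 1 * rep N n 1 1 := ⟨_, rfl⟩
  rw [← hA, ← hC] at h1
  rw [← hB, ← hC] at h2
  have e : ∑ n ∈ range (2 * N + 1), (rep N n u v - p * rep N n 1 1) ^ 2 = A - 2 * p * B + p ^ 2 * C := by
    rw [hA, hB, hC, Finset.mul_sum, Finset.mul_sum, ← Finset.sum_sub_distrib, ← Finset.sum_add_distrib]
    refine Finset.sum_congr rfl fun n _ => ?_
    ring
  rw [e]
  have e2 : A - 2 * p * B + p ^ 2 * C = (A - p ^ 2 * C) + (-(2 * p) * (B - p * C)) := by ring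
  rw [e2]
  have h3 : A - p ^ 2 * C ≤ E := (le_abs_self _).trans h1
  have h4 : -(2 * p) * (B - p * C) ≤ 2 * |p| * E := by
    calc -(2 * p) * (B - p * C) ≤ |-(2 * p) * (B - p * C)| := le_abs_self _
      _ = 2 * |p| * |B - p * C| := by rw [abs_mul, abs_neg, abs_mul, abs_two]
      _ ≤ 2 * |p| * E := mul_le_mul_of_nonneg_left h2 (by positivity)
  linarith

end Pool.Agent.L0h71.LE
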